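import Mathlib

/-!
# Counting copies in degenerate graphs

Upper and lower bound for the number of copies of a graph in a `k`-degenerate graph in terms of
the largest independent set of vertices of degree at most `k`.
-/

set_option autoImplicit false

namespace Pool.Agent.DegCount

open Finset
open scoped Classical

universe u v

/-- degeneracy in terms of vertex sets -/
def Deg {V : Type u} (k : ℕ) (G : SimpleGraph V) : Prop :=
  ∀ S : Finset V, S.Nonempty → ∃ v ∈ S, {w : V | w ∈ S ∧ G.Adj v w}.ncard ≤ k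

/-- A degeneracy ordering. -/
theorem exists_rank {W : Type u} [Fintype W] (k : ℕ) (G : SimpleGraph W) (hG : Deg k G) :
    ∀ (m : ℕ) (S : Finset W), S.card = m →
      ∃ r : W → ℕ, (∀ v ∈ S, r v < m) ∧ (∀ v ∈ S, ∀ w ∈ S, r v = r w → v = w) ∧
        ∀ v ∈ S, {w : W | w ∈ S ∧ G.Adj v w ∧ r w < r v}.ncard ≤ k := by
  intro m
  induction m with
  | zero =>
    intro S hS
    rw [Finset.card_eq_zero] at hS
    subst hS
    exact ⟨fun _ => 0, by simp, by simp, by simp⟩
  | succ m ih =>
    intro S hS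
    obtain ⟨v, hv, hcard⟩ := hG S (by rw [← Finset.card_pos]; omega)
    obtain ⟨r, hr1, hr2, hr3⟩ := ih (S.erase v) (by rw [Finset.card_erase_of_mem hv]; omega)
    refine ⟨fun w => if w = v then m else r w, ?_, ?_, ?_⟩
    · intro w hw
      by_cases h : w = v
      · simp [h]
      · have := hr1 w (Finset.mem_erase.2 ⟨h, hw⟩)
        simp [h]; omega
    · intro w hw u hu heq
      by_cases h : w = v
      · by_cases h' : u = v
        · rw [h, h']
        · have := hr1 u (Finset.mem_erase.2 ⟨h', hu⟩)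
          simp [h, h'] at heq; omega
      · by_cases h' : u = v
        · have := hr1 w (Finset.mem_erase.2 ⟨h, hw⟩)
          simp [h, h'] at heq; omega
        · simp [h, h'] at heq
          exact hr2 w (Finset.mem_erase.2 ⟨h, hw⟩) u (Finset.mem_erase.2 ⟨h', hu⟩) heq
    · intro w hw
      by_cases h : w = v
      · subst h
        refine le_trans (Set.ncard_le_ncard ?_ (Set.toFinite _)) hcard
        intro x hx
        exact ⟨hx.1, hx.2.1⟩
      · refine le_trans (Set.ncard_le_ncard ?_ (Set.toFinite _))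
          (hr3 w (Finset.mem_erase.2 ⟨h, hw⟩))
        intro x hx
        obtain ⟨hx1, hx2, hx3⟩ := hx
        have hlt := hr1 w (Finset.mem_erase.2 ⟨h, hw⟩)
        by_cases h' : x = v
        · simp [h, h'] at hx3; omega
        · simp [h, h'] at hx3
          exact ⟨Finset.mem_erase.2 ⟨h', hx1⟩, hx2, hx3⟩

/-- codes for the elements of a small set -/
theorem exists_code {W : Type u} [Finite W] (s : Set W) (k : ℕ) (hs : s.ncard ≤ k) :
    ∃ c : W → ℕ, (∀ w ∈ s, c w < k) ∧ Set.InjOn c s := by
  have := Fintype.ofFinite W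
  have hcard : Fintype.card s ≤ Fintype.card (Fin k) := by
    rw [Fintype.card_fin, ← Nat.card_eq_fintype_card, Nat.card_coe_set_eq]
    exact hs
  obtain ⟨e⟩ := Function.Embedding.nonempty_of_card_le hcard
  refine ⟨fun w => if h : w ∈ s then (e ⟨w, h⟩).val else 0, ?_, ?_⟩
  · intro w hw
    simp only [hw, dif_pos]
    exact (e ⟨w, hw⟩).isLt
  · intro w hw w' hw' h
    simp only [hw, hw', dif_pos] at h
    have := e.injective (Fin.ext h)
    exact congrArg Subtype.val this

/-- the number of labelled copies in a `k`-degenerate graph -/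
theorem copies_le {V : Type u} {W : Type v} [Fintype V] [Fintype W] (H : SimpleGraph V)
    (G : SimpleGraph W) (k α : ℕ) (hG : Deg k G)
    (hα : ∀ I : Finset V, (∀ u ∈ I, ∀ v ∈ I, ¬ H.Adj u v) →
      (∀ v ∈ I, (H.neighborSet v).ncard ≤ k) → I.card ≤ α) (hW : Nonempty W) :
    Nat.card (H.Copy G) ≤ (k * Fintype.card V + 1) ^ Fintype.card V * Fintype.card W ^ α := by
  obtain ⟨r, hr1, hr2, hr3⟩ := exists_rank k G hG (Fintype.card W) Finset.univ Finset.card_univ
  have hr2' : ∀ v w, r v = r w → v = w := fun v w => hr2 v (Finset.mem_univ _) w (Finset.mem_univ _)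
  have hr3' : ∀ v, {w : W | G.Adj v w ∧ r w < r v}.ncard ≤ k := by
    intro v
    have := hr3 v (Finset.mem_univ _)
    simpa using this
  choose c hc1 hc2 using fun v => exists_code _ k (hr3' v)
  obtain ⟨w0⟩ := hW
  -- the parent relation
  have hex : ∀ (φ : H.Copy G) (x : V), ∃ P : Option (V × Fin k),
      (P = none → ∀ p, H.Adj x p → r (φ p) < r (φ x)) ∧
      ∀ p i, P = some (p, i) → r (φ x) < r (φ p) ∧ G.Adj (φ p) (φ x) ∧
        c (φ p) (φ x) = i.val := by
    intro φ x
    by_cases h : ∃ p, H.Adj x p ∧ r (φ x) < r (φ p)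
    · obtain ⟨p, hp1, hp2⟩ := h
      have hadj : G.Adj (φ p) (φ x) := φ.toHom.map_rel hp1.symm
      refine ⟨some (p, ⟨c (φ p) (φ x), hc1 _ _ ⟨hadj, hp2⟩⟩), by simp, ?_⟩
      intro p' i heq
      simp only [Option.some.injEq, Prod.mk.injEq] at heq
      obtain ⟨rfl, rfl⟩ := heq
      exact ⟨hp2, hadj, rfl⟩
    · refine ⟨none, ?_, by simp⟩
      intro _ p hp
      push Not at h
      refine lt_of_le_of_ne (h p hp) ?_
      intro heq
      have := φ.injective (hr2' _ _ heq)
      subst this
      exact H.irrefl hp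
  choose P hP1 hP2 using hex
  have hT : ∀ φ : H.Copy G, {x : V | P φ x = none}.ncard ≤ α := by
    intro φ
    have h1 : ({x : V | P φ x = none} : Set V) =
        ((Finset.univ.filter (fun x => P φ x = none) : Finset V) : Set V) := by
      ext x
      simp
    rw [h1, Set.ncard_coe_finset]
    apply hα
    · intro x hx y hy hxy
      have h2 := hP1 φ x (Finset.mem_filter.mp hx).2 y hxy
      have h3 := hP1 φ y (Finset.mem_filter.mp hy).2 x hxy.symm
      omega
    · intro x hx
      have h2 := hP1 φ x (Finset.mem_filter.mp hx).2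
      refine le_trans ?_ (hr3' (φ x))
      have h3 : φ '' (H.neighborSet x) ⊆ {w : W | G.Adj (φ x) w ∧ r w < r (φ x)} := by
        rintro _ ⟨p, hp, rfl⟩
        exact ⟨φ.toHom.map_rel hp, h2 p hp⟩
      have h4 := Set.ncard_le_ncard h3 (Set.toFinite _)
      have h5 : Function.Injective (φ : V → W) := φ.injective
      rwa [Set.ncard_image_of_injective _ h5] at h4
  have hj : ∀ Q : V → Option (V × Fin k), ∃ j : V → ℕ, {x : V | Q x = none}.ncard ≤ α →
      (∀ x, Q x = none → j x < α) ∧ Set.InjOn j {x : V | Q x = none} := by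
    intro Q
    by_cases h : {x : V | Q x = none}.ncard ≤ α
    · obtain ⟨j, h1, h2⟩ := exists_code _ α h
      exact ⟨j, fun _ => ⟨h1, h2⟩⟩
    · exact ⟨fun _ => 0, fun h' => absurd h' h⟩
  choose j hj using hj
  let R : H.Copy G → (Fin α → W) := fun φ i =>
    if h : ∃ x, P φ x = none ∧ j (P φ) x = i.val then φ h.choose else w0
  have hR : ∀ (φ : H.Copy G) (x : V) (hx : P φ x = none),
      R φ ⟨j (P φ) x, (hj (P φ) (hT φ)).1 x hx⟩ = φ x := by
    intro φ x hx
    have hex : ∃ y, P φ y = none ∧ j (P φ) y =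
        (⟨j (P φ) x, (hj (P φ) (hT φ)).1 x hx⟩ : Fin α).val := ⟨x, hx, rfl⟩
    have h1 : R φ ⟨j (P φ) x, (hj (P φ) (hT φ)).1 x hx⟩ = φ hex.choose := by
      simp only [R]
      rw [dif_pos hex]
    rw [h1]
    congr 1
    exact (hj (P φ) (hT φ)).2 hex.choose_spec.1 hx hex.choose_spec.2
  let Φ : H.Copy G → (V → Option (V × Fin k)) × (Fin α → W) := fun φ => (P φ, R φ)
  have hinj : Function.Injective Φ := by
    intro φ ψ h
    have hPP : P φ = P ψ := congrArg Prod.fst h
    have hRR : R φ = R ψ := congrArg Prod.snd h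
    have hsrc : ∀ x, P φ x = none → φ x = ψ x := by
      intro x hx
      have hx' : P ψ x = none := by rw [← hPP]; exact hx
      rw [← hR φ x hx, ← hR ψ x hx', hRR]
      congr 1
      apply Fin.ext
      simp only
      rw [hPP]
    have main : ∀ m : ℕ, ∀ x : V, Fintype.card W - r (φ x) ≤ m → φ x = ψ x := by
      intro m
      induction m with
      | zero =>
        intro x hk
        have := hr1 (φ x) (Finset.mem_univ _)
        omega
      | succ m ih =>
        intro x hk
        rcases hx : P φ x with _ | ⟨p, i⟩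
        · exact hsrc x hx
        · obtain ⟨h1, h2, h3⟩ := hP2 φ x p i hx
          have hx' : P ψ x = some (p, i) := by rw [← hPP]; exact hx
          obtain ⟨h1', h2', h3'⟩ := hP2 ψ x p i hx'
          have hlt := hr1 (φ p) (Finset.mem_univ _)
          have hp := ih p (by omega)
          apply hc2 (φ p) ⟨h2, h1⟩
          · rw [hp]
            exact ⟨h2', h1'⟩
          · rw [h3]
            rw [hp]
            exact h3'.symm
    apply SimpleGraph.Copy.ext
    intro x
    exact main _ x le_rfl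
  have hcard := Nat.card_le_card_of_injective Φ hinj
  refine le_trans hcard (le_of_eq ?_)
  rw [Nat.card_eq_fintype_card, Fintype.card_prod, Fintype.card_fun, Fintype.card_fun,
    Fintype.card_option, Fintype.card_prod, Fintype.card_fin, Fintype.card_fin,
    mul_comm (Fintype.card V) k]

/-! ### the lower bound -/

/-- the blow-up -/
def blow {V : Type u} (H : SimpleGraph V) (I : Finset V) (m : ℕ) : SimpleGraph (V × Fin m) where
  Adj a b := H.Adj a.1 b.1 ∧ (a.1 ∉ I → a.2.val = 0) ∧ (b.1 ∉ I → b.2.val = 0)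
  symm := ⟨fun _ _ h => ⟨h.1.symm, h.2.2, h.2.1⟩⟩
  loopless := ⟨fun _ h => H.irrefl h.1⟩

theorem blow_deg {V : Type u} [Finite V] (k : ℕ) (H : SimpleGraph V) (hH : Deg k H) (I : Finset V)
    (hI : ∀ u ∈ I, ∀ v ∈ I, ¬ H.Adj u v) (hk : ∀ v ∈ I, (H.neighborSet v).ncard ≤ k) (m : ℕ) :
    Deg k (blow H I m) := by
  intro S hS
  by_cases h1 : ∃ a ∈ S, a.1 ∈ I
  · obtain ⟨a, ha, haI⟩ := h1
    refine ⟨a, ha, ?_⟩
    refine le_trans ?_ (hk a.1 haI)
    apply Set.ncard_le_ncard_of_injOn Prod.fst
    · intro b hb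
      exact hb.2.1
    · intro b hb b' hb' hbb
      obtain ⟨-, h1, h2, h3⟩ := hb
      obtain ⟨-, h1', h2', h3'⟩ := hb'
      have hbI : b.1 ∉ I := fun h => hI a.1 haI b.1 h h1
      have hbI' : b'.1 ∉ I := fun h => hI a.1 haI b'.1 h h1'
      exact Prod.ext hbb (Fin.ext ((h3 hbI).trans (h3' hbI').symm))
  · push Not at h1
    by_cases h2 : ∃ a ∈ S, a.2.val ≠ 0
    · obtain ⟨a, ha, ha2⟩ := h2
      refine ⟨a, ha, ?_⟩
      have : {w : V × Fin m | w ∈ S ∧ (blow H I m).Adj a w} = ∅ := by
        rw [Set.eq_empty_iff_forall_notMem]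
        rintro b ⟨_, _, h3, _⟩
        exact ha2 (h3 (h1 a ha))
      rw [this, Set.ncard_empty]
      exact Nat.zero_le _
    · push Not at h2
      obtain ⟨v, hv, hcard⟩ := hH (S.image Prod.fst) (hS.image _)
      obtain ⟨a, ha, rfl⟩ := Finset.mem_image.mp hv
      refine ⟨a, ha, le_trans ?_ hcard⟩
      apply Set.ncard_le_ncard_of_injOn Prod.fst
      · intro b hb
        exact ⟨Finset.mem_image_of_mem _ hb.1, hb.2.1⟩
      · intro b hb b' hb' hbb
        exact Prod.ext hbb (Fin.ext ((h2 b hb.1).trans (h2 b' hb'.1).symm))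

theorem map_deg {V : Type u} {W : Type v} [Finite W] (k : ℕ) (H : SimpleGraph V)
    (hH : Deg k H) (f : V ↪ W) : Deg k (H.map f) := by
  intro S hS
  by_cases h1 : ∃ x ∈ S, x ∉ Set.range f
  · obtain ⟨x, hx, hxf⟩ := h1
    refine ⟨x, hx, ?_⟩
    have : {w : W | w ∈ S ∧ (H.map f).Adj x w} = ∅ := by
      rw [Set.eq_empty_iff_forall_notMem]
      rintro b ⟨_, hb⟩
      rw [SimpleGraph.map_adj] at hb
      obtain ⟨p, q, _, hp, _⟩ := hb
      exact hxf ⟨p, hp⟩
    rw [this, Set.ncard_empty]
    exact Nat.zero_le _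
  · push Not at h1
    let S' : Finset V := S.preimage f (f.injective.injOn)
    have hS' : S'.Nonempty := by
      obtain ⟨x, hx⟩ := hS
      obtain ⟨p, rfl⟩ := h1 x hx
      exact ⟨p, Finset.mem_preimage.mpr hx⟩
    obtain ⟨v, hv, hcard⟩ := hH S' hS'
    refine ⟨f v, Finset.mem_preimage.mp hv, le_trans ?_ hcard⟩
    have h2 : {w : W | w ∈ S ∧ (H.map f).Adj (f v) w} ⊆ f '' {w : V | w ∈ S' ∧ H.Adj v w} := by
      rintro w ⟨hw, hadj⟩
      rw [SimpleGraph.map_adj] at hadj
      obtain ⟨p, q, hpq, hp, rfl⟩ := hadj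
      have := f.injective hp
      subst this
      exact ⟨q, ⟨Finset.mem_preimage.mpr hw, hpq⟩, rfl⟩
    have hfin : {w : V | w ∈ S' ∧ H.Adj v w}.Finite :=
      Set.Finite.subset S'.finite_toSet (fun w hw => hw.1)
    refine le_trans (Set.ncard_le_ncard h2 (hfin.image _)) (Set.ncard_image_le hfin)

/-- many copies in a `k`-degenerate graph -/
theorem exists_many {V : Type u} [Fintype V] [Nonempty V] (k : ℕ) (H : SimpleGraph V)
    (hH : Deg k H) (I : Finset V) (hI : ∀ u ∈ I, ∀ v ∈ I, ¬ H.Adj u v)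
    (hk : ∀ v ∈ I, (H.neighborSet v).ncard ≤ k) (n : ℕ) (hn : Fintype.card V ≤ n) :
    ∃ G : SimpleGraph (Fin n), Deg k G ∧ (n / Fintype.card V) ^ I.card ≤ G.copyCount H := by
  have hVpos : 0 < Fintype.card V := Fintype.card_pos
  set m := n / Fintype.card V with hm
  have hm1 : 0 < m := Nat.div_pos hn hVpos
  have hcard : Fintype.card (V × Fin m) ≤ Fintype.card (Fin n) := by
    rw [Fintype.card_prod, Fintype.card_fin, Fintype.card_fin, hm]
    exact Nat.mul_div_le n _
  obtain ⟨f⟩ := Function.Embedding.nonempty_of_card_le hcard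
  refine ⟨(blow H I m).map f, map_deg k _ (blow_deg k H hH I hI hk m) f, ?_⟩
  let g0 : Fin m := ⟨0, hm1⟩
  let c : (I → Fin m) → V → V × Fin m := fun g v => (v, if h : v ∈ I then g ⟨v, h⟩ else g0)
  have hc : ∀ g v, (c g v).1 = v := fun _ _ => rfl
  have hc0 : ∀ g v, v ∉ I → (c g v).2.val = 0 := by
    intro g v hv
    simp only [c, dif_neg hv, g0]
  have hadj : ∀ g u v, H.Adj u v → ((blow H I m).map f).Adj (f (c g u)) (f (c g v)) := by
    intro g u v huv
    rw [SimpleGraph.map_adj]
    exact ⟨c g u, c g v, ⟨huv, hc0 g u, hc0 g v⟩, rfl, rfl⟩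
  have hcinj : ∀ g, Function.Injective (fun v => f (c g v)) := by
    intro g u v huv
    have := f.injective huv
    exact congrArg Prod.fst this
  let C : (I → Fin m) → H.Copy ((blow H I m).map f) := fun g =>
    { toHom := { toFun := fun v => f (c g v), map_rel' := fun {u v} huv => hadj g u v huv }
      injective' := hcinj g }
  have hverts : ∀ g, (C g).toSubgraph.verts = Set.range (fun v => f (c g v)) := by
    intro g
    ext x
    simp only [SimpleGraph.Copy.toSubgraph, SimpleGraph.Subgraph.map_verts,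
      SimpleGraph.Subgraph.verts_top, Set.image_univ]
    rfl
  have hinj : Function.Injective (fun g => (C g).toSubgraph) := by
    intro g g' h
    have h1 : Set.range (fun v => f (c g v)) = Set.range (fun v => f (c g' v)) := by
      rw [← hverts g, ← hverts g']
      exact congrArg SimpleGraph.Subgraph.verts h
    funext x
    have h2 : f (c g x.1) ∈ Set.range (fun v => f (c g' v)) := by
      rw [← h1]
      exact ⟨x.1, rfl⟩
    obtain ⟨y, hy⟩ := h2
    have h3 := f.injective hy
    have h4 : y = x.1 := congrArg Prod.fst h3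
    subst h4
    have h5 := congrArg Prod.snd h3
    simp only [c, dif_pos x.2] at h5
    exact h5.symm
  rw [SimpleGraph.copyCount_eq_card_image_copyToSubgraph]
  have h1 : m ^ I.card = Fintype.card (I → Fin m) := by
    rw [Fintype.card_fun, Fintype.card_fin, Fintype.card_coe]
  rw [h1, ← Finset.card_univ, ← Finset.card_image_of_injective _ hinj]
  apply Finset.card_le_card
  intro S hS
  rw [Finset.mem_image] at hS ⊢
  obtain ⟨g, _, rfl⟩ := hS
  exact ⟨C g, Finset.mem_univ _, rfl⟩

end Pool.Agent.DegCount
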